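import Pool.Agent.Helper65.SN.Step

/-!
# Large values far from geodesics of small discriminant; many separated large values (helper65)
-/

set_option autoImplicit false

open UpperHalfPlane Finset

namespace Pool.Agent.Helper65.SN

open Pool.Agent.N661.SN

variable {U : ℂ → ℂ} {p : ℕ}

theorem im_div_pos (v : ℍ) (β : ℕ) {d : ℕ} (hd : 0 < d) (a : ℕ) (ha : 0 < a) :
    0 < (((a : ℂ) * v + β) / (d : ℂ)).im := im_pt v.im_pos ha hd

/-- In each of the `p` directions other than the one of the cusp there is a large value at distance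
one or two on the tree. -/
theorem branch (hU : HeckeRel U) (hp : p.Prime) {c : ℂ}
    (hc : ∀ w : ℂ, 0 < w.im →
      U ((p : ℂ) * w) + ∑ b ∈ range p, U ((w + (b : ℂ)) / (p : ℂ)) = c * U w)
    (v : ℍ) {b : ℕ} (hb : b < p) :
    ∃ (w : ℍ) (e β : ℕ), 1 ≤ e ∧ e ≤ 2 ∧ β < p ^ e ∧ β % p = b ∧
      (w : ℂ) = (((1 : ℕ) : ℂ) * v + β) / ((p ^ e : ℕ) : ℂ) ∧
      ‖U v‖ ≤ (‖c‖ + p) * ‖U w‖ := by
  by_contra hcon
  have hp0 : (0 : ℝ) < p := by exact_mod_cast hp.pos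
  have hpc : (p : ℂ) ≠ 0 := by exact_mod_cast hp.ne_zero
  have hL : 0 < ‖c‖ + (p : ℝ) := by positivity
  set ε : ℝ := ‖U v‖ / (‖c‖ + p) with hε
  have key : ∀ (w : ℍ) (e β : ℕ), 1 ≤ e → e ≤ 2 → β < p ^ e → β % p = b →
      (w : ℂ) = (((1 : ℕ) : ℂ) * v + β) / ((p ^ e : ℕ) : ℂ) → ‖U w‖ < ε := by
    intro w e β h1 h2 h3 h4 h5
    rw [hε, lt_div_iff₀ hL, mul_comm]
    by_contra h
    exact hcon ⟨w, e, β, h1, h2, h3, h4, h5, not_lt.1 h⟩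
  have hw1 : 0 < (((v : ℂ) + (b : ℂ)) / (p : ℂ)).im := im_div_p hp v.im_pos b
  have e1 : ‖U (((v : ℂ) + (b : ℂ)) / (p : ℂ))‖ < ε := by
    refine key ⟨_, hw1⟩ 1 b le_rfl (by norm_num) (by simpa using hb) (Nat.mod_eq_of_lt hb) ?_
    show ((v : ℂ) + (b : ℂ)) / (p : ℂ) = _
    push_cast
    rw [pow_one, one_mul]
  have e2 : ∀ b' ∈ range p, ‖U (((((v : ℂ) + (b : ℂ)) / (p : ℂ)) + (b' : ℂ)) / (p : ℂ))‖ < ε := by
    intro b' hb'
    rw [mem_range] at hb'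
    have hw2 := im_div_p hp hw1 b'
    refine key ⟨_, hw2⟩ 2 (b + p * b') (by norm_num) le_rfl ?_ ?_ ?_
    · calc b + p * b' < p + p * b' := by omega
        _ = p * (b' + 1) := by ring
        _ ≤ p * p := Nat.mul_le_mul_left _ (by omega)
        _ = p ^ 2 := by ring
    · rw [Nat.add_mul_mod_self_left, Nat.mod_eq_of_lt hb]
    · show ((((v : ℂ) + (b : ℂ)) / (p : ℂ)) + (b' : ℂ)) / (p : ℂ) = _
      push_cast
      field_simp
      ring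
  have h1 := hc _ hw1
  rw [back hU hp v.im_pos b] at h1
  have h2 : ‖∑ b' ∈ range p, U (((((v : ℂ) + (b : ℂ)) / (p : ℂ)) + (b' : ℂ)) / (p : ℂ))‖ < p * ε := by
    refine (norm_sum_le _ _).trans_lt ?_
    refine (sum_lt_sum_of_nonempty ⟨0, mem_range.2 hp.pos⟩ e2).trans_eq ?_
    rw [sum_const, card_range, nsmul_eq_mul]
  have h3 : ‖U v‖ < (‖c‖ + p) * ε := by
    have e : U v = c * U (((v : ℂ) + (b : ℂ)) / (p : ℂ)) -
        ∑ b' ∈ range p, U (((((v : ℂ) + (b : ℂ)) / (p : ℂ)) + (b' : ℂ)) / (p : ℂ)) := by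
      rw [← h1]; ring
    rw [e]
    refine (norm_sub_le _ _).trans_lt ?_
    rw [norm_mul, add_mul]
    refine add_lt_add_of_le_of_lt ?_ h2
    gcongr
  rw [hε, mul_div_cancel₀ _ hL.ne'] at h3
  exact lt_irrefl _ h3

/-- a base point from which `branch` loses little -/
theorem base (hp : p.Prime) {c : ℂ}
    (hc : ∀ w : ℂ, 0 < w.im →
      U ((p : ℂ) * w) + ∑ b ∈ range p, U ((w + (b : ℂ)) / (p : ℂ)) = c * U w) (w : ℍ) :
    ∃ (v : ℍ) (α β γ : ℕ), 0 < α ∧ 0 < γ ∧ (α * γ = 1 ∨ α * γ = p) ∧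
      (v : ℂ) = ((α : ℂ) * w + β) / γ ∧ ‖U w‖ * (‖c‖ + p) ≤ 2 * ((p : ℝ) + 1) * ‖U v‖ := by
  have hp1 : (1 : ℝ) ≤ p := by exact_mod_cast hp.one_le
  rcases le_total ‖c‖ ((p : ℝ) + 1) with hcs | hcl
  · refine ⟨w, 1, 0, 1, one_pos, one_pos, Or.inl rfl, by simp, ?_⟩
    rw [mul_comm]
    have : 0 ≤ ‖U w‖ := norm_nonneg _
    gcongr
    linarith
  by_contra hcon
  have key : ∀ (v : ℍ) (α β γ : ℕ), 0 < α → 0 < γ → α * γ = p →
      (v : ℂ) = ((α : ℂ) * w + β) / γ → ((p : ℝ) + 1) * ‖U v‖ < ‖c‖ * ‖U w‖ := by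
    intro v α β γ h1 h2 h3 h4
    by_contra h
    rw [not_lt] at h
    refine hcon ⟨v, α, β, γ, h1, h2, Or.inr h3, h4, ?_⟩
    have h5 : ‖U w‖ * (‖c‖ + p) ≤ ‖U w‖ * (2 * ‖c‖) := by
      gcongr
      linarith
    linarith
  have hpw : 0 < ((p : ℂ) * w).im := by
    have h := im_pt w.im_pos (a := p) (b := 0) (d := 1) hp.pos one_pos
    simpa using h
  have k1 : ((p : ℝ) + 1) * ‖U ((p : ℂ) * w)‖ < ‖c‖ * ‖U w‖ :=
    key ⟨_, hpw⟩ p 0 1 hp.pos one_pos (mul_one p) (by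
      show (p : ℂ) * w = _
      simp)
  have k2 : ∀ j ∈ range p, ((p : ℝ) + 1) * ‖U (((w : ℂ) + (j : ℂ)) / (p : ℂ))‖ ≤ ‖c‖ * ‖U w‖ := by
    intro j _
    exact (key ⟨_, im_div_p hp w.im_pos j⟩ 1 j p one_pos hp.pos (one_mul p) (by
      show ((w : ℂ) + (j : ℂ)) / (p : ℂ) = _
      simp)).le
  have h1 := hc (w : ℂ) w.im_pos
  have h2 : ((p : ℝ) + 1) * ‖c * U w‖ < ((p : ℝ) + 1) * (‖c‖ * ‖U w‖) := by
    rw [← h1]
    calc ((p : ℝ) + 1) * ‖U ((p : ℂ) * w) + ∑ b ∈ range p, U (((w : ℂ) + (b : ℂ)) / (p : ℂ))‖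
        ≤ ((p : ℝ) + 1) * (‖U ((p : ℂ) * w)‖ + ∑ b ∈ range p, ‖U (((w : ℂ) + (b : ℂ)) / (p : ℂ))‖) := by
          gcongr
          exact (norm_add_le _ _).trans (add_le_add le_rfl (norm_sum_le _ _))
      _ = ((p : ℝ) + 1) * ‖U ((p : ℂ) * w)‖ +
          ∑ b ∈ range p, ((p : ℝ) + 1) * ‖U (((w : ℂ) + (b : ℂ)) / (p : ℂ))‖ := by
          rw [mul_add, mul_sum]
      _ < ‖c‖ * ‖U w‖ + ∑ b ∈ range p, ‖c‖ * ‖U w‖ :=
          add_lt_add_of_lt_of_le k1 (sum_le_sum k2)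
      _ = ((p : ℝ) + 1) * (‖c‖ * ‖U w‖) := by
          rw [sum_const, card_range, nsmul_eq_mul]
          ring
  rw [norm_mul] at h2
  exact lt_irrefl _ h2

theorem comp {z v w : ℍ} {a b d a' b' d' : ℕ} (hd : 0 < d) (h : (v : ℂ) = ((a : ℂ) * z + b) / d)
    (h' : (w : ℂ) = ((a' : ℂ) * v + b') / d') :
    (w : ℂ) = (((a' * a : ℕ) : ℂ) * z + ((a' * b + b' * d : ℕ) : ℂ)) / ((d' * d : ℕ) : ℂ) := by
  have hdc : (d : ℂ) ≠ 0 := by exact_mod_cast hd.ne'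
  rw [h', h]
  by_cases hd' : (d' : ℂ) = 0
  · rw [hd']
    push_cast
    rw [hd']
    simp
  · push_cast
    field_simp
    ring

theorem im_bounds {v w : ℍ} {a b d : ℕ} {K S : ℝ} (ha : 0 < a) (hd : 0 < d)
    (h : (v : ℂ) = ((a : ℂ) * w + b) / d) (hK : ((a * d : ℕ) : ℝ) ≤ K) (hS0 : 0 < S)
    (h1 : w.im ≤ S) (h2 : 1 / S ≤ w.im) : v.im ≤ K * S ∧ 1 / (K * S) ≤ v.im := by
  have har : (1 : ℝ) ≤ a := by exact_mod_cast ha
  have hdr : (1 : ℝ) ≤ d := by exact_mod_cast hd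
  have hK' : (a : ℝ) * d ≤ K := by exact_mod_cast hK
  have hK0 : 0 < K := lt_of_lt_of_le (by positivity) hK'
  have hw := w.im_pos
  rw [im_eq h]
  constructor
  · rw [div_le_iff₀ (by positivity)]
    have h3 : (a : ℝ) ≤ K * d := by nlinarith
    calc (a : ℝ) * w.im ≤ (K * d) * S := by gcongr
      _ = K * S * d := by ring
  · rw [div_le_div_iff₀ (by positivity) (by positivity)]
    have h3 : (d : ℝ) ≤ K * a := by nlinarith
    have h4 : 1 ≤ w.im * S := by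
      rwa [div_le_iff₀ hS0] at h2
    calc 1 * (d : ℝ) ≤ (K * a) * (w.im * S) := by
          rw [one_mul]
          nlinarith
      _ = a * w.im * (K * S) := by ring

/-- the primitive form of a geodesic -/
theorem primitive {A B C : ℤ} {N : ℕ} (hD : 0 < B ^ 2 - 4 * A * C) (hDN : B ^ 2 - 4 * A * C ≤ N) :
    ∃ a b c x y t : ℤ, a * x + b * y + c * t = 1 ∧ 0 < b ^ 2 - 4 * a * c ∧ b ^ 2 - 4 * a * c ≤ N ∧
      ∀ w : ℍ, (A : ℝ) * (w.re ^ 2 + w.im ^ 2) + B * w.re + C = 0 → ell a b c w = 0 := by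
  obtain ⟨u, a, b, c, x, y, t, hu, hA, hB, hC, hbez⟩ := bezout3 (v1 := A) (v2 := B) (v3 := C) (by
    rintro ⟨h1, h2, h3⟩
    rw [h1, h2] at hD
    simp at hD)
  have hu2 : 1 ≤ u ^ 2 := sq_pos_of_ne_zero hu
  have e : B ^ 2 - 4 * A * C = u ^ 2 * (b ^ 2 - 4 * a * c) := by
    rw [hA, hB, hC]; ring
  rw [e] at hD hDN
  have h1 : 0 < b ^ 2 - 4 * a * c := by
    by_contra h
    rw [not_lt] at h
    have := mul_nonpos_of_nonneg_of_nonpos (sq_nonneg u) h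
    linarith
  refine ⟨a, b, c, x, y, t, hbez, h1, le_trans ?_ hDN, fun w hw => ?_⟩
  · exact le_mul_of_one_le_left h1.le hu2
  · have hur : (u : ℝ) ≠ 0 := by exact_mod_cast hu
    apply mul_left_cancel₀ hur
    rw [mul_zero, ← hw, hA, hB, hC]
    unfold ell
    push_cast
    ring

theorem far (hU : HeckeRel U) {R : ℝ} (hR : 1 ≤ R) {z : ℍ} (hzR : ‖(z : ℂ)‖ ≤ R)
    (hzr : 1 / R ≤ z.im) {N : ℕ} (hN : 1 ≤ N) :
    ∃ (w : ℍ) (a b d : ℕ), 0 < a ∧ 0 < d ∧ a * d ≤ 2 ^ 52 * N ^ 27 ∧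
      (w : ℂ) = ((a : ℂ) * z + b) / d ∧ ‖U z‖ ≤ 2 ^ 142 * (N : ℝ) ^ 73 * ‖U w‖ ∧
      NoReturn N (1 / (2 ^ 80 * R ^ 2 * (N : ℝ) ^ 35)) w ∧
      Off N (1 / (2 ^ 80 * R ^ 2 * (N : ℝ) ^ 35)) w := by
  have hN1 : (1 : ℝ) ≤ N := by exact_mod_cast hN
  have hN0 : (0 : ℝ) < N := by linarith
  have hR0 : 0 < R := by linarith
  obtain ⟨p, hp, hp1, hp2⟩ := Nat.exists_prime_lt_and_le_two_mul (N + 1) (by omega)
  have hp3 : 3 ≤ p := by omega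
  have hpN : N < p := by omega
  have hp4 : p ≤ 4 * N := by omega
  have hp4r : (p : ℝ) ≤ 4 * N := by exact_mod_cast hp4
  have hpr : (1 : ℝ) ≤ p := by exact_mod_cast hp.one_le
  obtain ⟨c, hc⟩ := heckeP hU hp
  obtain ⟨w0, a0, b0, d0, ha0, hd0, -, had0, hw0, hU0, hNR0⟩ :=
    generic hU hR hzR hzr (N := 2 ^ 12 * N ^ 8) (Nat.one_le_iff_ne_zero.2 (by positivity))
  set δ' : ℝ := 1 / (2 ^ 15 * R ^ 2 * ((2 ^ 12 * N ^ 8 : ℕ) : ℝ) ^ 4) with hδ'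
  have hδ'e : δ' = 1 / (2 ^ 63 * R ^ 2 * (N : ℝ) ^ 32) := by
    rw [hδ']
    congr 1
    push_cast
    ring
  set δ : ℝ := 1 / (2 ^ 80 * R ^ 2 * (N : ℝ) ^ 35) with hδ
  have hδ0 : 0 < δ := by positivity
  have hden : (1 : ℝ) ≤ R ^ 2 * (N : ℝ) ^ 35 :=
    one_le_mul_of_one_le_of_one_le (one_le_pow₀ hR) (one_le_pow₀ hN1)
  have hδ20 : δ ≤ 1 / 20 := by
    rw [hδ]
    apply one_div_le_one_div_of_le (by norm_num)
    nlinarith
  have hδδ' : δ ≤ δ' := by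
    rw [hδ'e, hδ]
    apply one_div_le_one_div_of_le (by positivity)
    have h1 : (N : ℝ) ^ 32 ≤ (N : ℝ) ^ 35 := pow_le_pow_right₀ hN1 (by norm_num)
    have h2 : (2 : ℝ) ^ 63 ≤ 2 ^ 80 := by norm_num
    gcongr
  have had0' : a0 * d0 ≤ 2 ^ 46 * N ^ 24 := by
    refine had0.trans (le_of_eq ?_)
    ring
  have hziR : z.im ≤ R := by
    have := Complex.abs_im_le_norm (z : ℂ)
    rw [UpperHalfPlane.coe_im] at this
    exact (le_abs_self _).trans (this.trans hzR)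
  obtain ⟨i1, i2⟩ := im_bounds (K := 2 ^ 46 * (N : ℝ) ^ 24) ha0 hd0 hw0
    (by exact_mod_cast had0') hR0 hziR hzr
  -- the base point
  obtain ⟨v, α, β, γ, hα, hγ, hαγ, hv, hUv⟩ := base hp hc w0
  have hαγp : α * γ ≤ p := by
    rcases hαγ with h | h
    · rw [h]; exact hp.one_le
    · rw [h]
  obtain ⟨S, hS⟩ : ∃ S : ℝ, S = (4 * (N : ℝ)) * (2 ^ 46 * (N : ℝ) ^ 24 * R) := ⟨_, rfl⟩
  have hS0 : 0 < S := by rw [hS]; positivity
  obtain ⟨i3, i4⟩ := im_bounds (K := 4 * (N : ℝ)) hα hγ hv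
    (by exact_mod_cast hαγp.trans hp4) (by positivity) i1 i2
  rw [← hS] at i3 i4
  -- no returns
  have hpow : ∀ M : ℕ, M * p ^ 2 ≤ 2 ^ 12 * N ^ 8 → NoReturn M δ' v := by
    intro M hM
    refine noReturn_child hα hγ hv (noReturn_mono hNR0 (le_trans ?_ hM) le_rfl)
    gcongr
  have hcp : 0 < ‖c‖ + (p : ℝ) := by positivity
  have hUp : ∀ w : ℍ, ‖U v‖ ≤ (‖c‖ + p) * ‖U w‖ → ‖U w0‖ ≤ 2 * ((p : ℝ) + 1) * ‖U w‖ := by
    intro w hw
    have h1 : ‖U w0‖ * (‖c‖ + p) ≤ (2 * ((p : ℝ) + 1) * ‖U w‖) * (‖c‖ + p) := by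
      refine hUv.trans ?_
      calc 2 * ((p : ℝ) + 1) * ‖U v‖ ≤ 2 * ((p : ℝ) + 1) * ((‖c‖ + p) * ‖U w‖) := by gcongr
        _ = _ := by ring
    exact le_of_mul_le_mul_right h1 hcp
  have hUz : ∀ w : ℍ, ‖U w0‖ ≤ 2 * ((p : ℝ) + 1) * ‖U w‖ →
      ‖U z‖ ≤ 2 ^ 142 * (N : ℝ) ^ 73 * ‖U w‖ := by
    intro w hw
    have h1 : 2 * ((p : ℝ) + 1) ≤ 2 ^ 4 * N := by linarith
    calc ‖U z‖ ≤ 2 ^ 30 * ((2 ^ 12 * N ^ 8 : ℕ) : ℝ) ^ 9 * ‖U w0‖ := hU0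
      _ ≤ 2 ^ 30 * ((2 ^ 12 * N ^ 8 : ℕ) : ℝ) ^ 9 * ((2 ^ 4 * N) * ‖U w‖) := by
          have : 0 ≤ ‖U w‖ := norm_nonneg _
          gcongr
          exact hw.trans (by gcongr)
      _ = 2 ^ 142 * (N : ℝ) ^ 73 * ‖U w‖ := by
          push_cast
          ring
  have hp2N : p ^ 2 ≤ 2 ^ 4 * N ^ 2 := by
    calc p ^ 2 ≤ (4 * N) ^ 2 := by gcongr
      _ = _ := by ring
  by_cases hoff : Off N δ v
  · refine ⟨v, α * a0, α * b0 + β * d0, γ * d0, by positivity, by positivity, ?_,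
      comp hd0 hw0 hv, hUz v ?_, ?_, hoff⟩
    · calc α * a0 * (γ * d0) = (α * γ) * (a0 * d0) := by ring
        _ ≤ (4 * N) * (2 ^ 46 * N ^ 24) := Nat.mul_le_mul (hαγp.trans hp4) had0'
        _ = 2 ^ 48 * N ^ 25 := by ring
        _ ≤ 2 ^ 52 * N ^ 27 := by
            gcongr <;> norm_num
    · refine hUp v ?_
      have : 0 ≤ ‖U v‖ := norm_nonneg _
      have : 0 ≤ ‖c‖ := norm_nonneg _
      nlinarith
    · refine noReturn_mono (hpow N ?_) le_rfl hδδ'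
      calc N * p ^ 2 ≤ N * (2 ^ 4 * N ^ 2) := by gcongr
        _ = 2 ^ 4 * N ^ 3 := by ring
        _ ≤ 2 ^ 12 * N ^ 8 := by gcongr <;> norm_num
  · unfold Off at hoff
    push Not at hoff
    obtain ⟨A, B, C, hD, hDN, ws, hws, hdist⟩ := hoff
    obtain ⟨a, b, e, x, y, t, hbez, hD1, hDN1, hgeo⟩ := primitive hD hDN
    have hD1r : (0 : ℝ) < ((b ^ 2 - 4 * a * e : ℤ) : ℝ) := by exact_mod_cast hD1
    set s : ℝ := Real.sqrt ((b ^ 2 - 4 * a * e : ℤ) : ℝ) with hs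
    have hs0 : 0 < s := Real.sqrt_pos.2 hD1r
    have hs2 : s ^ 2 = ((b ^ 2 - 4 * a * e : ℤ) : ℝ) := Real.sq_sqrt hD1r.le
    have hl := ell_le (hδ20.trans (by norm_num)) hs0.le hs2 (hgeo ws hws) hdist
    obtain ⟨b1, hb1, hb2⟩ := exists_b (A := a) (B := b) (C := e) hp hp3 (by
      intro h
      have h1 := Int.le_of_dvd hD1 h
      have h2 : (p : ℤ) ≤ N := h1.trans hDN1
      have h3 : p ≤ N := by exact_mod_cast h2
      omega)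
    obtain ⟨w, f, β', hf1, hf2, hβ1, hβ2, hw, hUw⟩ := branch hU hp hc v hb1
    have hpf : p ^ f ≤ p ^ 2 := Nat.pow_le_pow_right hp.pos hf2
    have hNp2 : (N : ℝ) * p ^ 2 ≤ 2 ^ 4 * (N : ℝ) ^ 3 := by
      have h1 : (p : ℝ) ^ 2 ≤ 2 ^ 4 * (N : ℝ) ^ 2 := by exact_mod_cast hp2N
      calc (N : ℝ) * p ^ 2 ≤ N * (2 ^ 4 * (N : ℝ) ^ 2) := by gcongr
        _ = _ := by ring
    refine ⟨w, 1 * (α * a0), 1 * (α * b0 + β * d0) + β' * (γ * d0), p ^ f * (γ * d0),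
      by positivity, ?_, ?_, comp (by positivity) (comp hd0 hw0 hv) hw, hUz w (hUp w hUw), ?_, ?_⟩
    · have := hp.pos
      positivity
    · calc 1 * (α * a0) * (p ^ f * (γ * d0)) = p ^ f * ((α * γ) * (a0 * d0)) := by ring
        _ ≤ (2 ^ 4 * N ^ 2) * ((4 * N) * (2 ^ 46 * N ^ 24)) :=
            Nat.mul_le_mul (hpf.trans hp2N) (Nat.mul_le_mul (hαγp.trans hp4) had0')
        _ = 2 ^ 52 * N ^ 27 := by ring
    · refine noReturn_mono (noReturn_child (M := N) one_pos (by have := hp.pos; positivity) hw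
        (hpow _ ?_)) le_rfl hδδ'
      calc N * (1 * p ^ f) ^ 2 * p ^ 2 ≤ N * (1 * p ^ 2) ^ 2 * p ^ 2 := by gcongr
        _ = N * (p ^ 2) ^ 3 := by ring
        _ ≤ N * (2 ^ 4 * N ^ 2) ^ 3 := by gcongr
        _ = 2 ^ 12 * N ^ 7 := by ring
        _ ≤ 2 ^ 12 * N ^ 8 := by gcongr; norm_num
    · refine child_off (M := N ^ 2 * p ^ 4) hp hpN (hpow _ ?_) i3 i4 hS0 hδ0 hδ20 hbez hs0 hs2 hDN1 hl hf1 hf2
        (hb2 β' hβ2) le_rfl ?_ ?_ hw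
      · calc N ^ 2 * p ^ 4 * p ^ 2 = N ^ 2 * (p ^ 2) ^ 3 := by ring
          _ ≤ N ^ 2 * (2 ^ 4 * N ^ 2) ^ 3 := by gcongr
          _ = 2 ^ 12 * N ^ 8 := by ring
      · calc 80 * δ * (N * p ^ 2) * S ≤ 80 * δ * (2 ^ 4 * (N : ℝ) ^ 3) * S := by gcongr
          _ = (80 * 2 ^ 52 * (R * (N : ℝ) ^ 28)) / (2 ^ 80 * R ^ 2 * (N : ℝ) ^ 35) := by
              rw [hS, hδ]
              field_simp
              ring
          _ ≤ 1 := by
              rw [div_le_one (by positivity)]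
              have h1 : (N : ℝ) ^ 28 ≤ (N : ℝ) ^ 35 := pow_le_pow_right₀ hN1 (by norm_num)
              have h2 : R ≤ R ^ 2 := le_self_pow₀ hR (by norm_num)
              calc 80 * 2 ^ 52 * (R * (N : ℝ) ^ 28) ≤ 2 ^ 80 * (R ^ 2 * (N : ℝ) ^ 35) := by
                    gcongr
                    norm_num
                _ = _ := by ring
      · calc 80 * δ * (N * p ^ 2) ≤ 80 * δ * (2 ^ 4 * (N : ℝ) ^ 3) := by gcongr
          _ = (80 * 2 ^ 4 / 2 ^ 17) * (1 / (2 ^ 63 * R ^ 2 * (N : ℝ) ^ 32)) := by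
              rw [hδ]
              field_simp
          _ < 1 * (1 / (2 ^ 63 * R ^ 2 * (N : ℝ) ^ 32)) := by
              have : 0 < 1 / (2 ^ 63 * R ^ 2 * (N : ℝ) ^ 32) := by positivity
              refine mul_lt_mul_of_pos_right (by norm_num) this
          _ = δ' := by rw [hδ'e, one_mul]

end Pool.Agent.Helper65.SN
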