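import Pool.Agent.N661.SN.Generic

/-!
# Points near geodesics of small discriminant, and returns (helper65)
-/

set_option autoImplicit false

open UpperHalfPlane

namespace Pool.Agent.Helper65.SN

open Pool.Agent.N661.SN (NoReturn q int_zero)

/-- vanishes on the geodesic of the form `(A, B, C)` -/
noncomputable def ell (A B C : ℤ) (w : ℍ) : ℝ := A * (w.re ^ 2 + w.im ^ 2) + B * w.re + C

theorem ell_id (A B C : ℤ) (w : ℍ) :
    (2 * A * w.re + B) ^ 2 + (2 * A * w.im) ^ 2 =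
      ((B ^ 2 - 4 * A * C : ℤ) : ℝ) + 4 * A * ell A B C w := by
  unfold ell
  push_cast
  ring

theorem mobius {A B C D : ℤ} (hn : 0 < A * D - B * C) (w : ℍ) :
    ∃ w' : ℍ, (w' : ℂ) * (C * (w : ℂ) + D) = A * (w : ℂ) + B ∧
      Real.cosh (dist w' w) =
        1 + ‖q C (D - A) (-B) (w : ℂ)‖ ^ 2 / (2 * ((A * D - B * C : ℤ) : ℝ) * w.im ^ 2) := by
  have hw := w.im_pos
  have hnr : (0 : ℝ) < ((A * D - B * C : ℤ) : ℝ) := by exact_mod_cast hn
  set den : ℂ := (C : ℂ) * (w : ℂ) + D with hden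
  have hden0 : den ≠ 0 := by
    intro h
    have h1 := congrArg Complex.im h
    have h2 := congrArg Complex.re h
    simp [hden] at h1 h2
    rcases h1 with h1 | h1
    · rw [h1] at h2
      simp at h2
      rw [h1, h2] at hn
      simp at hn
    · exact hw.ne' h1
  have hN : 0 < ‖den‖ ^ 2 := by
    have := norm_pos_iff.2 hden0
    positivity
  have him : (((A : ℂ) * (w : ℂ) + B) / den).im = ((A * D - B * C : ℤ) : ℝ) * w.im / ‖den‖ ^ 2 := by
    rw [Complex.div_im, Complex.normSq_eq_norm_sq]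
    rw [← sub_div]
    congr 1
    simp [hden]
    ring
  have hpos : 0 < (((A : ℂ) * (w : ℂ) + B) / den).im := by
    rw [him]
    positivity
  refine ⟨⟨((A : ℂ) * (w : ℂ) + B) / den, hpos⟩, div_mul_cancel₀ _ hden0, ?_⟩
  rw [UpperHalfPlane.cosh_dist]
  congr 1
  have e1 : dist (((⟨((A : ℂ) * (w : ℂ) + B) / den, hpos⟩ : ℍ)) : ℂ) (w : ℂ) ^ 2 =
      ‖q C (D - A) (-B) (w : ℂ)‖ ^ 2 / ‖den‖ ^ 2 := by
    rw [dist_eq_norm, ← div_pow, ← norm_div]
    have : (((⟨((A : ℂ) * (w : ℂ) + B) / den, hpos⟩ : ℍ)) : ℂ) - (w : ℂ) =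
        -(q C (D - A) (-B) (w : ℂ) / den) := by
      show ((A : ℂ) * (w : ℂ) + B) / den - (w : ℂ) = _
      rw [q]
      field_simp
      rw [hden]
      push_cast
      ring
    rw [this, norm_neg]
  have e2 : (⟨((A : ℂ) * (w : ℂ) + B) / den, hpos⟩ : ℍ).im =
      ((A * D - B * C : ℤ) : ℝ) * w.im / ‖den‖ ^ 2 := him
  rw [e1, e2]
  field_simp

/-- a point close to the geodesic -/
theorem ell_le {A B C : ℤ} {w ws : ℍ} {δ s : ℝ} (hδ : δ ≤ 1 / 4) (hs : 0 ≤ s)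
    (hs2 : s ^ 2 = ((B ^ 2 - 4 * A * C : ℤ) : ℝ)) (h : ell A B C ws = 0) (hd : dist ws w < δ) :
    |ell A B C w| ≤ 10 * s * δ * w.im := by
  have hd0 : 0 ≤ dist ws w := dist_nonneg
  have hδ0 : 0 < δ := hd0.trans_lt hd
  have hexp : Real.exp (dist w ws) - 1 ≤ 2 * δ := by
    rw [dist_comm]
    have h1 := Real.abs_exp_sub_one_le (x := dist ws w) (by rw [abs_of_nonneg hd0]; linarith)
    rw [abs_of_nonneg hd0] at h1
    have := le_abs_self (Real.exp (dist ws w) - 1)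
    linarith
  have hwi := w.im_pos
  have hwi' := ws.im_pos
  set r : ℝ := dist (w : ℂ) (ws : ℂ) with hr
  have hr0 : 0 ≤ r := dist_nonneg
  have k2 : r ≤ ws.im * (2 * δ) := by
    refine (UpperHalfPlane.dist_coe_le w ws).trans ?_
    gcongr
  have kx : |w.re - ws.re| ≤ r := by
    have h1 : |((w : ℂ) - (ws : ℂ)).re| ≤ dist (w : ℂ) (ws : ℂ) := by
      rw [dist_eq_norm]
      exact Complex.abs_re_le_norm _
    simpa using h1
  have ky : |w.im - ws.im| ≤ r := by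
    have h1 : |((w : ℂ) - (ws : ℂ)).im| ≤ dist (w : ℂ) (ws : ℂ) := by
      rw [dist_eq_norm]
      exact Complex.abs_im_le_norm _
    simpa using h1
  have kr : (w.re - ws.re) ^ 2 + (w.im - ws.im) ^ 2 = r ^ 2 := by
    rw [hr, dist_eq_norm, ← Complex.normSq_eq_norm_sq, Complex.normSq_apply]
    simp
    ring
  have hy2 : ws.im ≤ 2 * w.im := by
    have h1 := neg_abs_le (w.im - ws.im)
    nlinarith
  have hid := ell_id A B C ws
  rw [h, mul_zero, add_zero, ← hs2] at hid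
  have hA : |(A : ℝ)| * ws.im ≤ s / 2 := by
    have h1 : (2 * (A : ℝ) * ws.im) ^ 2 ≤ s ^ 2 := by nlinarith [sq_nonneg (2 * (A : ℝ) * ws.re + B)]
    have h2 := abs_le_of_sq_le_sq h1 hs
    rw [abs_mul, abs_mul, abs_of_pos hwi', abs_two] at h2
    linarith
  have hB : |2 * (A : ℝ) * ws.re + B| ≤ s := by
    have h1 : (2 * (A : ℝ) * ws.re + B) ^ 2 ≤ s ^ 2 := by nlinarith [sq_nonneg (2 * (A : ℝ) * ws.im)]
    exact abs_le_of_sq_le_sq h1 hs
  have e : ell A B C w = A * (r ^ 2 + 2 * ws.im * (w.im - ws.im)) +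
      (2 * A * ws.re + B) * (w.re - ws.re) := by
    have h0 := h
    rw [← kr]
    unfold ell at h0 ⊢
    linear_combination h0
  rw [e]
  have hA0 : 0 ≤ |(A : ℝ)| := abs_nonneg _
  calc |(A : ℝ) * (r ^ 2 + 2 * ws.im * (w.im - ws.im)) + (2 * A * ws.re + B) * (w.re - ws.re)|
      ≤ |(A : ℝ)| * (r ^ 2 + 2 * ws.im * r) + s * r := by
        refine (abs_add_le _ _).trans ?_
        rw [abs_mul, abs_mul]
        refine add_le_add ?_ ?_
        · refine mul_le_mul_of_nonneg_left ?_ hA0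
          refine (abs_add_le _ _).trans ?_
          rw [abs_of_nonneg (sq_nonneg r), abs_mul, abs_mul, abs_two, abs_of_pos hwi']
          gcongr
        · gcongr
    _ ≤ |(A : ℝ)| * (r * (ws.im * (1 / 2)) + 2 * ws.im * r) + s * r := by
        have : r ^ 2 ≤ r * (ws.im * (1 / 2)) := by
          rw [sq]
          refine mul_le_mul_of_nonneg_left (k2.trans ?_) hr0
          refine mul_le_mul_of_nonneg_left ?_ hwi'.le
          linarith
        gcongr
    _ = (|(A : ℝ)| * ws.im) * (5 / 2 * r) + s * r := by ring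
    _ ≤ (s / 2) * (5 / 2 * r) + s * r := by gcongr
    _ = 9 / 4 * (s * r) := by ring
    _ ≤ 9 / 4 * (s * (ws.im * (2 * δ))) := by gcongr
    _ ≤ 9 / 4 * (s * ((2 * w.im) * (2 * δ))) := by gcongr
    _ = 9 * (s * δ * w.im) := by ring
    _ ≤ 10 * s * δ * w.im := by
        have : 0 ≤ s * δ * w.im := by positivity
        linarith

/-- the coefficients of a form whose geodesic is close to `w` -/
theorem coef {A B C : ℤ} {w : ℍ} {δ s : ℝ} (hδ0 : 0 ≤ δ) (hδ : δ ≤ 1 / 20) (hs : 0 ≤ s)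
    (hs2 : s ^ 2 = ((B ^ 2 - 4 * A * C : ℤ) : ℝ)) (h : |ell A B C w| ≤ 10 * s * δ * w.im) :
    |(A : ℝ)| * w.im ≤ s ∧ |(B : ℝ) + 2 * w.re * A| ≤ 2 * s := by
  have hwi := w.im_pos
  have hid := ell_id A B C w
  rw [← hs2] at hid
  set X : ℝ := |(A : ℝ)| * w.im with hX
  have hX0 : 0 ≤ X := by positivity
  have hX2 : (2 * (A : ℝ) * w.im) ^ 2 = 4 * X ^ 2 := by
    rw [hX, mul_pow |(A : ℝ)|, sq_abs]; ring
  have h1 : 4 * (A : ℝ) * ell A B C w ≤ 2 * s * X := by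
    have h2 : 4 * (A : ℝ) * ell A B C w ≤ 4 * (|(A : ℝ)| * |ell A B C w|) := by
      rw [← abs_mul]
      have := le_abs_self ((A : ℝ) * ell A B C w)
      linarith
    refine h2.trans ?_
    calc 4 * (|(A : ℝ)| * |ell A B C w|) ≤ 4 * (|(A : ℝ)| * (10 * s * δ * w.im)) := by gcongr
      _ = (40 * δ) * (s * X) := by rw [hX]; ring
      _ ≤ (40 * (1 / 20)) * (s * X) := by gcongr
      _ = 2 * s * X := by ring
  rw [hX2] at hid
  have h3 : 4 * X ^ 2 ≤ s ^ 2 + 2 * s * X := by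
    nlinarith [sq_nonneg (2 * (A : ℝ) * w.re + B)]
  have h4 : X ≤ s := by
    by_contra hcon
    rw [not_le] at hcon
    nlinarith
  refine ⟨h4, ?_⟩
  have h5 : ((B : ℝ) + 2 * w.re * A) ^ 2 ≤ (2 * s) ^ 2 := by
    have e : ((B : ℝ) + 2 * w.re * A) = 2 * (A : ℝ) * w.re + B := by ring
    rw [e]
    nlinarith [sq_nonneg X]
  exact abs_le_of_sq_le_sq h5 (by positivity)

theorem cosh_ge (x : ℝ) (hx : 0 ≤ x) : 1 + x ^ 2 / 2 ≤ Real.cosh x := by
  have h1 : Real.cosh x = 1 + 2 * Real.sinh (x / 2) ^ 2 := by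
    have h2 := Real.cosh_two_mul (x / 2)
    have h3 := Real.cosh_sq (x / 2)
    rw [mul_div_cancel₀ _ two_ne_zero] at h2
    rw [h2, h3]
    ring
  have h4 : x / 2 ≤ Real.sinh (x / 2) := Real.self_le_sinh_iff.2 (by positivity)
  have h5 : (x / 2) ^ 2 ≤ Real.sinh (x / 2) ^ 2 := by gcongr
  rw [h1]
  nlinarith

theorem pos_aux {t k F E : ℝ} (hk : 0 < k) (ht : 2 * k ≤ t) (hF : -(t * k) ≤ F)
    (hE : E ≤ (k / 2) ^ 2) : 0 < t ^ 2 + F - E := by
  have h1 : t * k ≤ t * (t / 2) := by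
    have : 0 ≤ t := by linarith
    gcongr
    linarith
  have h2 : (k / 2) ^ 2 ≤ (t / 4) ^ 2 :=
    pow_le_pow_left₀ (by positivity) (by linarith) 2
  have h3 : 0 < t := by linarith
  nlinarith [mul_pos h3 h3]

theorem fin_aux {k d c q : ℝ} (hk : 0 < k) (h6 : 2 * k < d) (hc2 : 1 + d ^ 2 / 2 ≤ c)
    (hc1 : c ≤ 1 + q) (h5 : q ≤ k ^ 2) : False := by
  have h1 : (2 * k) ^ 2 < d ^ 2 := by
    have : 0 ≤ 2 * k := by positivity
    gcongr
  nlinarith [mul_pos hk hk]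

/-- Two forms whose geodesics come close to a point without short returns are proportional. -/
theorem jac_zero {v : ℍ} {M : ℕ} {δ δ' S s s' : ℝ} (hNR : NoReturn M δ' v) (hS : v.im ≤ S)
    (hS' : 1 / S ≤ v.im) (hδ0 : 0 < δ) (hδ : δ ≤ 1 / 20) {A B C A' B' C' : ℤ} (hs : 0 < s) (hs' : 0 < s')
    (hs2 : s ^ 2 = ((B ^ 2 - 4 * A * C : ℤ) : ℝ)) (hs2' : s' ^ 2 = ((B' ^ 2 - 4 * A' * C' : ℤ) : ℝ))
    (hDD : (B ^ 2 - 4 * A * C) * (B' ^ 2 - 4 * A' * C') ≤ M)
    (hl : |ell A B C v| ≤ 10 * s * δ * v.im) (hl' : |ell A' B' C' v| ≤ 10 * s' * δ * v.im)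
    (h1 : 80 * δ * (s * s') * S ≤ 1) (h2 : 80 * δ * (s * s') < δ') :
    A * B' = A' * B ∧ A * C' = A' * C ∧ B * C' = B' * C := by
  have hy := v.im_pos
  obtain ⟨cA, cB⟩ := coef hδ0.le hδ hs.le hs2 hl
  obtain ⟨cA', cB'⟩ := coef hδ0.le hδ hs'.le hs2' hl'
  have hS0 : 0 < S := by
    by_contra hcon
    rw [not_lt] at hcon
    linarith
  set x := v.re with hx
  set y := v.im with hyy
  set l : ℝ := ell A B C v with hlv
  set l' : ℝ := ell A' B' C' v with hlv'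
  set k : ℝ := 40 * δ * (s * s') with hk
  have hk0 : 0 < k := by positivity
  set e1 : ℝ := A * l' - A' * l with he1
  set f : ℝ := (B + 2 * x * A) * l' - (B' + 2 * x * A') * l with hf
  have be1 : |e1| ≤ k / 2 := by
    have h3 : |e1| * y ≤ k / 2 * y := by
      calc |e1| * y = |(A : ℝ) * y * l' - A' * y * l| := by
            rw [← abs_of_pos hy, ← abs_mul, he1, abs_of_pos hy]
            congr 1
            ring
        _ ≤ |(A : ℝ) * y * l'| + |A' * y * l| := abs_sub _ _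
        _ = (|(A : ℝ)| * y) * |l'| + (|(A' : ℝ)| * y) * |l| := by
            rw [abs_mul, abs_mul, abs_mul, abs_mul, abs_of_pos hy]
        _ ≤ s * (10 * s' * δ * y) + s' * (10 * s * δ * y) := by gcongr
        _ = k / 2 * y := by rw [hk]; ring
    exact le_of_mul_le_mul_right h3 hy
  have bf : |f| ≤ k * y := by
    calc |f| ≤ |((B : ℝ) + 2 * x * A) * l'| + |((B' : ℝ) + 2 * x * A') * l| := abs_sub _ _
      _ = |(B : ℝ) + 2 * x * A| * |l'| + |(B' : ℝ) + 2 * x * A'| * |l| := by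
          rw [abs_mul, abs_mul]
      _ ≤ (2 * s) * (10 * s' * δ * y) + (2 * s') * (10 * s * δ * y) := by gcongr
      _ = k * y := by rw [hk]; ring
  obtain ⟨a, ha⟩ : ∃ a : ℤ, a = A * B' - A' * B := ⟨_, rfl⟩
  obtain ⟨β, hβ⟩ : ∃ β : ℤ, β = A * C' - A' * C := ⟨_, rfl⟩
  obtain ⟨c, hc⟩ : ∃ c : ℤ, c = B * C' - B' * C := ⟨_, rfl⟩
  have iβ : (β : ℝ) = -x * a + e1 := by
    rw [hβ, ha, he1, hlv, hlv']
    unfold ell
    push_cast
    ring
  have ic : (c : ℝ) = (x ^ 2 + y ^ 2) * a + f - 2 * x * e1 := by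
    rw [hc, ha, hf, he1, hlv, hlv']
    unfold ell
    push_cast
    ring
  have hkS : k * S ≤ 1 / 2 := by
    have : k * S = 80 * δ * (s * s') * S / 2 := by rw [hk]; ring
    rw [this]; linarith
  have hky : 2 * k ≤ y := by
    refine le_trans ?_ hS'
    rw [le_div_iff₀ hS0]
    linarith
  have hkyS : k * y ≤ 1 / 2 := by
    refine le_trans ?_ hkS
    gcongr
  suffices h : a = 0 ∧ β = 0 ∧ c = 0 by
    obtain ⟨r1, r2, r3⟩ := h
    refine ⟨?_, ?_, ?_⟩ <;> linarith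
  by_contra hcon
  have ha0 : a ≠ 0 := by
    intro h0
    apply hcon
    rw [h0] at iβ ic
    have hk1 : k < 2 := by
      by_contra h9
      rw [not_lt] at h9
      have h10 : (4 : ℝ) ≤ y := by linarith
      have h11 : 2 * 4 ≤ k * y := by gcongr
      linarith
    have b0 : β = 0 := by
      apply int_zero
      rw [iβ]
      simp
      linarith
    have e0 : e1 = 0 := by
      rw [b0] at iβ
      simp at iβ
      linarith
    refine ⟨h0, b0, ?_⟩
    apply int_zero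
    rw [ic, e0]
    simp
    linarith
  have hn : ((a * c - β ^ 2 : ℤ) : ℝ) = a ^ 2 * y ^ 2 + a * f - e1 ^ 2 := by
    push_cast
    rw [iβ, ic]
    ring
  have hnpos : (0 : ℝ) < ((a * c - β ^ 2 : ℤ) : ℝ) := by
    rw [hn]
    set t : ℝ := |(a : ℝ)| * y with ht
    have ht2 : t ^ 2 = (a : ℝ) ^ 2 * y ^ 2 := by rw [ht, mul_pow, sq_abs]
    have ha1 : (1 : ℝ) ≤ |(a : ℝ)| := by exact_mod_cast Int.one_le_abs ha0
    have hty : y ≤ t := by
      rw [ht]
      exact le_mul_of_one_le_left hy.le ha1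
    have haf : -(t * k) ≤ a * f := by
      have h3 : |(a : ℝ) * f| ≤ t * k := by
        rw [abs_mul, ht]
        calc |(a : ℝ)| * |f| ≤ |(a : ℝ)| * (k * y) := by gcongr
          _ = _ := by ring
      have := neg_abs_le ((a : ℝ) * f)
      linarith
    have he2 : e1 ^ 2 ≤ (k / 2) ^ 2 := by
      rw [← sq_abs e1]
      gcongr
    rw [← ht2]
    exact pos_aux hk0 (hky.trans hty) haf he2
  have hnpos' : 0 < a * c - β ^ 2 := by exact_mod_cast hnpos
  have hnM : a * c - β ^ 2 ≤ M := by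
    have e : 4 * (a * c - β ^ 2) = (B ^ 2 - 4 * A * C) * (B' ^ 2 - 4 * A' * C') -
        (B * B' - 2 * A * C' - 2 * A' * C) ^ 2 := by
      rw [ha, hβ, hc]; ring
    have h9 := sq_nonneg (B * B' - 2 * A * C' - 2 * A' * C)
    linarith
  have hdet : -β * β - -c * a = a * c - β ^ 2 := by ring
  obtain ⟨w', hw', hcosh⟩ := mobius (A := -β) (B := -c) (C := a) (D := β) (by rw [hdet]; exact hnpos') v
  have hr := hNR (-β) (-c) a β (by rw [hdet]; exact hnpos') (by rw [hdet]; exact hnM)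
    (fun h => ha0 h.2.1) w' hw'
  have hδ' : 0 < δ' := lt_trans (by positivity) h2
  have hq : ‖q a (β - -β) (- -c) (v : ℂ)‖ ^ 2 = f ^ 2 + 4 * y ^ 2 * e1 ^ 2 := by
    have e : q a (β - -β) (- -c) (v : ℂ) = ((f : ℝ) : ℂ) + ((2 * y * e1 : ℝ) : ℂ) * Complex.I := by
      apply Complex.ext
      · simp [q, pow_two]
        rw [iβ, ic, ← hx, ← hyy]
        ring
      · simp [q, pow_two]
        rw [iβ, ← hx, ← hyy]
        ring
    rw [e, ← Complex.normSq_eq_norm_sq, Complex.normSq_add_mul_I]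
    ring
  have hc1 := Real.cosh_le_cosh.2 (show |δ'| ≤ |dist w' v| by
    rw [abs_of_pos hδ', abs_of_nonneg dist_nonneg]; exact hr)
  rw [hcosh, hq, hdet] at hc1
  have hc2 := cosh_ge δ' hδ'.le
  have h5 : (f ^ 2 + 4 * y ^ 2 * e1 ^ 2) / (2 * ((a * c - β ^ 2 : ℤ) : ℝ) * y ^ 2) ≤ k ^ 2 := by
    have hn1 : (1 : ℝ) ≤ ((a * c - β ^ 2 : ℤ) : ℝ) := by exact_mod_cast hnpos'
    rw [div_le_iff₀ (by positivity)]
    have h6 : f ^ 2 ≤ (k * y) ^ 2 := by rw [← sq_abs f]; gcongr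
    have h7 : e1 ^ 2 ≤ (k / 2) ^ 2 := by rw [← sq_abs e1]; gcongr
    calc f ^ 2 + 4 * y ^ 2 * e1 ^ 2 ≤ (k * y) ^ 2 + 4 * y ^ 2 * (k / 2) ^ 2 := by gcongr
      _ = k ^ 2 * (2 * 1 * y ^ 2) := by ring
      _ ≤ k ^ 2 * (2 * ((a * c - β ^ 2 : ℤ) : ℝ) * y ^ 2) := by gcongr
  have h6 : 2 * k < δ' := by rw [hk]; linarith
  exact fin_aux hk0 h6 hc2 hc1 h5

end Pool.Agent.Helper65.SN
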