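import Pool.Agent.Helper65.SN.Far

/-!
# Many separated large values (helper65)
-/

set_option autoImplicit false

open UpperHalfPlane Finset

namespace Pool.Agent.Helper65.SN

open Pool.Agent.N661.SN

variable {U : ℂ → ℂ}

/-- children in different directions are not related by integral matrices of small determinant -/
theorem sep {v w₁ w₂ : ℍ} {k p M e₁ e₂ β₁ β₂ : ℕ} {δ : ℝ} (hp : p.Prime) (hkp : k < p)
    (hNR : NoReturn M δ v) (hM : k * p ^ 4 ≤ M) (he₁ : e₁ ≤ 2) (he₂ : e₂ ≤ 2) (h1 : 1 ≤ e₂)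
    (hw₁ : (w₁ : ℂ) = (((1 : ℕ) : ℂ) * v + β₁) / ((p ^ e₁ : ℕ) : ℂ))
    (hw₂ : (w₂ : ℂ) = (((1 : ℕ) : ℂ) * v + β₂) / ((p ^ e₂ : ℕ) : ℂ))
    {A B C D : ℤ} (hn : 0 < A * D - B * C) (hnk : A * D - B * C ≤ k)
    (hne : β₁ % p ≠ β₂ % p ∨ (β₁ = β₂ ∧ ¬ (B = 0 ∧ C = 0 ∧ A = D))) {w' : ℍ}
    (hw' : (w' : ℂ) * (C * (w₁ : ℂ) + D) = A * (w₁ : ℂ) + B) : δ ≤ dist w' w₂ := by
  obtain ⟨m₁, hm₁⟩ : ∃ m₁ : ℕ, m₁ = p ^ e₁ := ⟨_, rfl⟩
  obtain ⟨m₂, hm₂⟩ : ∃ m₂ : ℕ, m₂ = p ^ e₂ := ⟨_, rfl⟩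
  rw [← hm₁] at hw₁
  rw [← hm₂] at hw₂
  have m1p : 0 < m₁ := by rw [hm₁]; exact pow_pos hp.pos _
  have m2p : 0 < m₂ := by rw [hm₂]; exact pow_pos hp.pos _
  have m1c : (m₁ : ℂ) ≠ 0 := by exact_mod_cast m1p.ne'
  have m2c : (m₂ : ℂ) ≠ 0 := by exact_mod_cast m2p.ne'
  have m1z : (m₁ : ℤ) ≠ 0 := by exact_mod_cast m1p.ne'
  have m2z : (m₂ : ℤ) ≠ 0 := by exact_mod_cast m2p.ne'
  have m1l : m₁ ≤ p ^ 2 := by rw [hm₁]; exact Nat.pow_le_pow_right hp.pos he₁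
  have m2l : m₂ ≤ p ^ 2 := by rw [hm₂]; exact Nat.pow_le_pow_right hp.pos he₂
  have him : 0 < ((m₂ : ℂ) * w' - β₂).im := by
    have h := w'.im_pos
    have h' : (0 : ℝ) < m₂ := by exact_mod_cast m2p
    simp
    positivity
  obtain ⟨v', hv'⟩ : ∃ v' : ℍ, (v' : ℂ) = (m₂ : ℂ) * w' - β₂ := ⟨⟨_, him⟩, rfl⟩
  have hw'v' : (w' : ℂ) = (((1 : ℕ) : ℂ) * v' + β₂) / (m₂ : ℂ) := by
    rw [hv']
    field_simp
    push_cast
    ring
  rw [dist_affine one_pos m2p hw₂ hw'v']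
  have hdet : (m₂ * A - β₂ * C) * (C * β₁ + D * m₁) -
      (m₂ * (A * β₁ + B * m₁) - β₂ * (C * β₁ + D * m₁)) * C = (m₂ * m₁ : ℤ) * (A * D - B * C) := by
    ring
  have hm12 : (0 : ℤ) < m₂ * m₁ := by exact_mod_cast Nat.mul_pos m2p m1p
  refine hNR (m₂ * A - β₂ * C) (m₂ * (A * β₁ + B * m₁) - β₂ * (C * β₁ + D * m₁)) C
    (C * β₁ + D * m₁) ?_ ?_ ?_ v' ?_
  · rw [hdet]
    exact mul_pos hm12 hn
  · rw [hdet]
    calc (m₂ * m₁ : ℤ) * (A * D - B * C) ≤ ((p : ℤ) ^ 2 * (p : ℤ) ^ 2) * k := by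
          have h3 : (m₁ : ℤ) ≤ p ^ 2 := by exact_mod_cast m1l
          have h4 : (m₂ : ℤ) ≤ p ^ 2 := by exact_mod_cast m2l
          exact mul_le_mul (mul_le_mul h4 h3 (Int.natCast_nonneg _) (by positivity)) hnk hn.le
            (by positivity)
      _ = ((k * p ^ 4 : ℕ) : ℤ) := by push_cast; ring
      _ ≤ (M : ℤ) := by exact_mod_cast hM
  · rintro ⟨g1, g2, g3⟩
    rw [g2] at g1 g3 hn hnk
    simp only [mul_zero, sub_zero, zero_mul, zero_add] at g1 g3 hn hnk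
    have hD0 : D ≠ 0 := by
      rintro rfl
      simp at hn
    have hA0 : A ≠ 0 := by
      rintro rfl
      simp at hn
    have hpz : Prime (p : ℤ) := Nat.prime_iff_prime_int.1 hp
    have hpAD : ¬ (p : ℤ) ∣ A * D := by
      intro h
      have h3 := Int.le_of_dvd hn h
      have h4 : (p : ℤ) ≤ k := h3.trans hnk
      have h5 : p ≤ k := by exact_mod_cast h4
      omega
    have hpA : ¬ (p : ℤ) ∣ A := fun h => hpAD (h.mul_right D)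
    have hpD : ¬ (p : ℤ) ∣ D := fun h => hpAD (h.mul_left A)
    have hmm : m₁ = m₂ := by
      have c1 : IsCoprime ((m₂ : ℤ)) D := by
        rw [hm₂]; push_cast
        exact ((hpz.coprime_iff_not_dvd).2 hpD).pow_left
      have c2 : IsCoprime ((m₁ : ℤ)) A := by
        rw [hm₁]; push_cast
        exact ((hpz.coprime_iff_not_dvd).2 hpA).pow_left
      have d1 : (m₂ : ℤ) ∣ m₁ := c1.dvd_of_dvd_mul_left (by rw [← g3]; exact dvd_mul_right _ _)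
      have d2 : (m₁ : ℤ) ∣ m₂ := c2.dvd_of_dvd_mul_right (by
        rw [g3]; exact dvd_mul_left _ _)
      exact Nat.dvd_antisymm (by exact_mod_cast d2) (by exact_mod_cast d1)
    rw [hmm] at g1 g3
    have hAD : A = D := by
      apply mul_left_cancel₀ m2z
      linear_combination g3
    have h4 : D * ((β₁ : ℤ) - β₂) = -(m₂ * B) := by
      apply mul_left_cancel₀ m2z
      rw [hAD] at g1
      linear_combination g1
    rcases hne with hne | ⟨hb, hns⟩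
    · apply hne
      have h5 : (p : ℤ) ∣ D * ((β₁ : ℤ) - β₂) := by
        rw [h4, dvd_neg]
        refine Dvd.dvd.mul_right ?_ B
        rw [hm₂]; push_cast
        exact dvd_pow_self _ (by omega)
      have h6 : (p : ℤ) ∣ (β₁ : ℤ) - β₂ := (hpz.dvd_or_dvd h5).resolve_left hpD
      have h7 : (β₂ : ℤ) ≡ β₁ [ZMOD p] := Int.modEq_iff_dvd.2 h6
      have h8 : β₂ ≡ β₁ [MOD p] := by exact_mod_cast h7
      exact h8.symm
    · apply hns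
      refine ⟨?_, g2, hAD⟩
      rw [hb, sub_self, mul_zero] at h4
      have h5 : (m₂ : ℤ) * B = 0 := by linarith
      exact (mul_eq_zero.1 h5).resolve_left m2z
  · rw [hw'v', hw₁] at hw'
    push_cast at hw' ⊢
    have h3 : ((v' : ℂ) + β₂) * (C * ((v : ℂ) + β₁) + D * m₁) =
        (A * ((v : ℂ) + β₁) + B * m₁) * m₂ := by
      field_simp at hw'
      linear_combination hw'
    linear_combination h3

theorem many (hU : HeckeRel U) {R : ℝ} (hR : 1 ≤ R) {z : ℍ} (hzR : ‖(z : ℂ)‖ ≤ R)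
    (hzr : 1 / R ≤ z.im) {k : ℕ} (hk : 1 ≤ k) :
    ∃ w : Fin k → ℍ, ∀ i,
      (∃ a b d : ℕ, 0 < a ∧ 0 < d ∧ a * d ≤ 2 ^ 31 * k ^ 24 ∧
        (w i : ℂ) = ((a : ℂ) * z + b) / d) ∧
      ‖U z‖ ≤ 2 ^ 87 * (k : ℝ) ^ 64 * ‖U (w i)‖ ∧
      ∀ (j : Fin k) (A B C D : ℤ), 0 < A * D - B * C → A * D - B * C ≤ k →
        (i ≠ j ∨ ¬ (B = 0 ∧ C = 0 ∧ A = D)) →
        ∀ w' : ℍ, (w' : ℂ) * (C * (w i : ℂ) + D) = A * (w i : ℂ) + B →
          1 / (2 ^ 39 * R ^ 2 * (k : ℝ) ^ 28) ≤ dist w' (w j) := by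
  have hk1 : (1 : ℝ) ≤ k := by exact_mod_cast hk
  have hk0 : (0 : ℝ) < k := by linarith
  have hR0 : 0 < R := by linarith
  obtain ⟨p, hp, hp1, hp2⟩ := Nat.exists_prime_lt_and_le_two_mul k (by omega)
  have hp2r : (p : ℝ) ≤ 2 * k := by exact_mod_cast hp2
  have hpr : (1 : ℝ) ≤ p := by exact_mod_cast hp.one_le
  obtain ⟨c, hc⟩ := heckeP hU hp
  obtain ⟨w0, a0, b0, d0, ha0, hd0, -, had0, hw0, hU0, hNR0⟩ :=
    generic hU hR hzR hzr (N := 2 ^ 6 * k ^ 7) (Nat.one_le_iff_ne_zero.2 (by positivity))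
  have hδ : 1 / (2 ^ 15 * R ^ 2 * ((2 ^ 6 * k ^ 7 : ℕ) : ℝ) ^ 4) =
      1 / (2 ^ 39 * R ^ 2 * (k : ℝ) ^ 28) := by
    congr 1
    push_cast
    ring
  rw [hδ] at hNR0
  have had0' : a0 * d0 ≤ 2 ^ 28 * k ^ 21 := by
    refine had0.trans (le_of_eq ?_)
    ring
  obtain ⟨v, α, β, γ, hα, hγ, hαγ, hv, hUv⟩ := base hp hc w0
  have hαγp : α * γ ≤ p := by
    rcases hαγ with h | h
    · rw [h]; exact hp.one_le
    · rw [h]
  have hNR : NoReturn (k * p ^ 4) (1 / (2 ^ 39 * R ^ 2 * (k : ℝ) ^ 28)) v := by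
    refine noReturn_child hα hγ hv (noReturn_mono hNR0 ?_ le_rfl)
    calc k * p ^ 4 * (α * γ) ^ 2 ≤ k * (2 * k) ^ 4 * (2 * k) ^ 2 :=
          Nat.mul_le_mul (Nat.mul_le_mul le_rfl (Nat.pow_le_pow_left hp2 4))
            (Nat.pow_le_pow_left (hαγp.trans hp2) 2)
      _ = 2 ^ 6 * k ^ 7 := by ring
  have hcp : 0 < ‖c‖ + (p : ℝ) := by positivity
  have hUz : ∀ w : ℍ, ‖U v‖ ≤ (‖c‖ + p) * ‖U w‖ → ‖U z‖ ≤ 2 ^ 87 * (k : ℝ) ^ 64 * ‖U w‖ := by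
    intro w hw
    have hw0' : ‖U w0‖ ≤ 2 * ((p : ℝ) + 1) * ‖U w‖ := by
      have h1 : ‖U w0‖ * (‖c‖ + p) ≤ (2 * ((p : ℝ) + 1) * ‖U w‖) * (‖c‖ + p) := by
        refine hUv.trans ?_
        calc 2 * ((p : ℝ) + 1) * ‖U v‖ ≤ 2 * ((p : ℝ) + 1) * ((‖c‖ + p) * ‖U w‖) := by gcongr
          _ = _ := by ring
      exact le_of_mul_le_mul_right h1 hcp
    have h1 : 2 * ((p : ℝ) + 1) ≤ 2 ^ 3 * k := by linarith
    calc ‖U z‖ ≤ 2 ^ 30 * ((2 ^ 6 * k ^ 7 : ℕ) : ℝ) ^ 9 * ‖U w0‖ := hU0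
      _ ≤ 2 ^ 30 * ((2 ^ 6 * k ^ 7 : ℕ) : ℝ) ^ 9 * ((2 ^ 3 * k) * ‖U w‖) := by
          have : 0 ≤ ‖U w‖ := norm_nonneg _
          gcongr
          exact hw0'.trans (by gcongr)
      _ = 2 ^ 87 * (k : ℝ) ^ 64 * ‖U w‖ := by
          push_cast
          ring
  have hb : ∀ i : Fin k, (i : ℕ) < p := fun i => i.2.trans hp1
  choose w e b he1 he2 hb1 hb2 hw hUw using fun i : Fin k => branch hU hp hc v (hb i)
  refine ⟨w, fun i => ⟨?_, hUz _ (hUw i), ?_⟩⟩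
  · refine ⟨1 * (α * a0), 1 * (α * b0 + β * d0) + b i * (γ * d0), p ^ e i * (γ * d0),
      by positivity, ?_, ?_, comp (by positivity) (comp hd0 hw0 hv) (hw i)⟩
    · have := hp.pos
      positivity
    · have hpf : p ^ e i ≤ 2 ^ 2 * k ^ 2 := by
        calc p ^ e i ≤ p ^ 2 := Nat.pow_le_pow_right hp.pos (he2 i)
          _ ≤ (2 * k) ^ 2 := by gcongr
          _ = _ := by ring
      calc 1 * (α * a0) * (p ^ e i * (γ * d0)) = p ^ e i * ((α * γ) * (a0 * d0)) := by ring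
        _ ≤ (2 ^ 2 * k ^ 2) * ((2 * k) * (2 ^ 28 * k ^ 21)) :=
            Nat.mul_le_mul hpf (Nat.mul_le_mul (hαγp.trans hp2) had0')
        _ = 2 ^ 31 * k ^ 24 := by ring
  · intro j A B C D hn hnk hne w' hw'
    refine sep hp hp1 hNR le_rfl (he2 i) (he2 j) (he1 j) (hw i) (hw j) hn hnk ?_ hw'
    by_cases hij : i = j
    · right
      rcases hne with h | h
      · exact absurd hij h
      · exact ⟨by rw [hij], h⟩
    · left
      rw [hb2 i, hb2 j]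
      exact fun h => hij (Fin.ext h)

end Pool.Agent.Helper65.SN
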