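import Pool.Agent.Helper65.SN.Geo

/-!
# Steps along the Hecke tree (helper65)
-/

set_option autoImplicit false

open UpperHalfPlane Finset

namespace Pool.Agent.Helper65.SN

open Pool.Agent.N661.SN

/-- `w` has distance at least `δ` from every geodesic of a form of positive discriminant `≤ N` -/
def Off (N : ℕ) (δ : ℝ) (w : ℍ) : Prop :=
  ∀ A B C : ℤ, 0 < B ^ 2 - 4 * A * C → B ^ 2 - 4 * A * C ≤ N →
    ∀ w' : ℍ, (A : ℝ) * (w'.re ^ 2 + w'.im ^ 2) + B * w'.re + C = 0 → δ ≤ dist w' w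

theorem noReturn_mono {N M : ℕ} {δ δ' : ℝ} {w : ℍ} (h : NoReturn N δ w) (hMN : M ≤ N)
    (hδ : δ' ≤ δ) : NoReturn M δ' w := by
  intro A B C D h1 h2 h3 w' hw'
  exact hδ.trans (h A B C D h1 (h2.trans (by exact_mod_cast hMN)) h3 w' hw')

theorem im_eq {v w : ℍ} {a b d : ℕ} (h : (v : ℂ) = ((a : ℂ) * w + b) / d) :
    v.im = a * w.im / d := by
  have h1 := congrArg Complex.im h
  rw [show ((d : ℕ) : ℂ) = ((d : ℝ) : ℂ) by norm_cast, Complex.div_ofReal_im] at h1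
  simpa using h1

theorem re_eq {v w : ℍ} {a b d : ℕ} (h : (v : ℂ) = ((a : ℂ) * w + b) / d) :
    v.re = (a * w.re + b) / d := by
  have h1 := congrArg Complex.re h
  rw [show ((d : ℕ) : ℂ) = ((d : ℝ) : ℂ) by norm_cast, Complex.div_ofReal_re] at h1
  simpa using h1

theorem dist_affine {v w v' w' : ℍ} {a b d : ℕ} (ha : 0 < a) (hd : 0 < d)
    (h : (v : ℂ) = ((a : ℂ) * w + b) / d) (h' : (v' : ℂ) = ((a : ℂ) * w' + b) / d) :
    dist v' v = dist w' w := by
  have har : (0 : ℝ) < a := by exact_mod_cast ha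
  have hdr : (0 : ℝ) < d := by exact_mod_cast hd
  have h1 : Real.cosh (dist v' v) = Real.cosh (dist w' w) := by
    rw [UpperHalfPlane.cosh_dist, UpperHalfPlane.cosh_dist]
    congr 1
    have e : dist (v' : ℂ) (v : ℂ) = a / d * dist (w' : ℂ) (w : ℂ) := by
      rw [dist_eq_norm, dist_eq_norm, h, h', ← sub_div]
      rw [show (a : ℂ) * w' + b - ((a : ℂ) * w + b) = (a : ℂ) * ((w' : ℂ) - w) by ring, norm_div,
        norm_mul]
      simp
      ring
    rw [e, im_eq h, im_eq h']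
    have hw := w.im_pos
    have hw' := w'.im_pos
    field_simp
  have h2 := Real.cosh_le_cosh.1 h1.le
  have h3 := Real.cosh_le_cosh.1 h1.ge
  rw [abs_of_nonneg dist_nonneg, abs_of_nonneg dist_nonneg] at h2 h3
  exact le_antisymm h2 h3

/-- transfer of the absence of returns to a Hecke neighbour -/
theorem noReturn_child {M : ℕ} {δ : ℝ} {v w : ℍ} {a b d : ℕ} (ha : 0 < a) (hd : 0 < d)
    (h : (v : ℂ) = ((a : ℂ) * w + b) / d) (hw : NoReturn (M * (a * d) ^ 2) δ w) :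
    NoReturn M δ v := by
  intro A B C D hn hnM hns v' hv'
  have har : (0 : ℝ) < a := by exact_mod_cast ha
  have hdr : (0 : ℝ) < d := by exact_mod_cast hd
  have hac : (a : ℂ) ≠ 0 := by exact_mod_cast ha.ne'
  have hdc : (d : ℂ) ≠ 0 := by exact_mod_cast hd.ne'
  have haz : (a : ℤ) ≠ 0 := by exact_mod_cast ha.ne'
  have hdz : (d : ℤ) ≠ 0 := by exact_mod_cast hd.ne'
  have him : 0 < (((d : ℂ) * v' - b) / a).im := by
    rw [show ((a : ℕ) : ℂ) = ((a : ℝ) : ℂ) by norm_cast, Complex.div_ofReal_im]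
    have := v'.im_pos
    simp
    positivity
  obtain ⟨w', hw'c⟩ : ∃ w' : ℍ, (w' : ℂ) = ((d : ℂ) * v' - b) / a := ⟨⟨_, him⟩, rfl⟩
  have hv'w' : (v' : ℂ) = ((a : ℂ) * w' + b) / d := by
    rw [hw'c]
    field_simp
    ring
  rw [dist_affine ha hd h hv'w']
  refine hw (a * d * A - a * b * C) (b * d * A + d ^ 2 * B - b ^ 2 * C - b * d * D) (a ^ 2 * C)
    (a * b * C + a * d * D) ?_ ?_ ?_ w' ?_
  · have e : ((a : ℤ) * d * A - a * b * C) * (a * b * C + a * d * D) -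
        (b * d * A + d ^ 2 * B - b ^ 2 * C - b * d * D) * (a ^ 2 * C) =
        (a * d) ^ 2 * (A * D - B * C) := by ring
    rw [e]
    positivity
  · have e : ((a : ℤ) * d * A - a * b * C) * (a * b * C + a * d * D) -
        (b * d * A + d ^ 2 * B - b ^ 2 * C - b * d * D) * (a ^ 2 * C) =
        (A * D - B * C) * (a * d) ^ 2 := by ring
    rw [e]
    push_cast
    gcongr
  · rintro ⟨g1, g2, g3⟩
    apply hns
    have hC : C = 0 := by
      rcases mul_eq_zero.1 g2 with g | g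
      · exact absurd g (pow_ne_zero 2 haz)
      · exact g
    rw [hC] at g1 g3
    have hAD : A = D := by
      have : (a : ℤ) * d * (A - D) = 0 := by linear_combination g3
      rcases mul_eq_zero.1 this with g | g
      · exact absurd g (mul_ne_zero haz hdz)
      · linarith
    rw [hAD] at g1
    have hB : (d : ℤ) ^ 2 * B = 0 := by linear_combination g1
    refine ⟨?_, hC, hAD⟩
    rcases mul_eq_zero.1 hB with g | g
    · exact absurd g (pow_ne_zero 2 hdz)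
    · exact g
  · rw [h] at hv'
    rw [hv'w'] at hv'
    push_cast
    have h2 : ((a : ℂ) * w' + b) * (C * ((a : ℂ) * w + b) + D * d) =
        (A * ((a : ℂ) * w + b) + B * d) * d := by
      field_simp at hv'
      linear_combination hv'
    linear_combination h2

/-- a class of `b` off the roots -/
theorem exists_b {p : ℕ} (hp : p.Prime) (hp3 : 3 ≤ p) {A B C : ℤ}
    (hD : ¬ (p : ℤ) ∣ B ^ 2 - 4 * A * C) : ∃ b : ℕ, b < p ∧
      ∀ β : ℕ, β % p = b → ¬ (p : ℤ) ∣ A * β ^ 2 - B * β + C := by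
  have key : ∃ b : ℕ, b < 3 ∧ ¬ (p : ℤ) ∣ A * b ^ 2 - B * b + C := by
    by_contra hcon
    push Not at hcon
    have h0 := hcon 0 (by norm_num)
    have h1 := hcon 1 (by norm_num)
    have h2 := hcon 2 (by norm_num)
    norm_num at h0 h1 h2
    have hpz : Prime (p : ℤ) := Nat.prime_iff_prime_int.1 hp
    have h2A : (p : ℤ) ∣ 2 * A := by
      have e : 2 * A = (A * 4 - B * 2 + C) - 2 * (A - B + C) + C := by ring
      rw [e]
      exact dvd_add (dvd_sub h2 (h1.mul_left 2)) h0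
    have hA : (p : ℤ) ∣ A := by
      rcases hpz.dvd_or_dvd h2A with h | h
      · exfalso
        have := Int.le_of_dvd (by norm_num) h
        omega
      · exact h
    have hB : (p : ℤ) ∣ B := by
      have e : B = A + C - (A - B + C) := by ring
      rw [e]
      exact dvd_sub (dvd_add hA h0) h1
    apply hD
    exact dvd_sub (dvd_pow hB (by norm_num)) ((hA.mul_left 4).mul_right C)
  obtain ⟨b, hb, hnd⟩ := key
  refine ⟨b, by omega, fun β hβ hd => hnd ?_⟩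
  obtain ⟨t, ht⟩ : ∃ t : ℤ, (β : ℤ) = b + p * t := by
    refine ⟨((β / p : ℕ) : ℤ), ?_⟩
    have := Nat.mod_add_div β p
    rw [hβ] at this
    exact_mod_cast this.symm
  rw [ht] at hd
  have e : A * ((b : ℤ) ^ 2) - B * b + C = (A * ((b : ℤ) + p * t) ^ 2 - B * (b + p * t) + C) -
      p * (A * (2 * b * t + p * t ^ 2) - B * t) := by ring
  rw [e]
  exact dvd_sub hd (dvd_mul_right _ _)

/-- The children in a direction which is not a root of the form are far from all geodesics of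
small discriminant. -/
theorem child_off {v w : ℍ} {N p M : ℕ} {δ δ' S s : ℝ} (hp : p.Prime) (hNp : N < p)
    (hNR : NoReturn M δ' v) (hS : v.im ≤ S) (hS' : 1 / S ≤ v.im) (hS0 : 0 < S) (hδ0 : 0 < δ)
    (hδ : δ ≤ 1 / 20) {A B C X Y Z : ℤ} (hbez : A * X + B * Y + C * Z = 1) (hs : 0 < s)
    (hs2 : s ^ 2 = ((B ^ 2 - 4 * A * C : ℤ) : ℝ)) (hDN : B ^ 2 - 4 * A * C ≤ N)
    (hl : |ell A B C v| ≤ 10 * s * δ * v.im) {e β : ℕ} (he1 : 1 ≤ e) (he2 : e ≤ 2)
    (hβ : ¬ (p : ℤ) ∣ A * β ^ 2 - B * β + C) (hM : N ^ 2 * p ^ 4 ≤ M)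
    (h1 : 80 * δ * (N * p ^ 2) * S ≤ 1) (h2 : 80 * δ * (N * p ^ 2) < δ')
    (hw : (w : ℂ) = (((1 : ℕ) : ℂ) * v + β) / ((p ^ e : ℕ) : ℂ)) : Off N δ w := by
  intro A' B' C' hD' hDN' w' hw'
  by_contra hcon
  rw [not_le] at hcon
  have hy := v.im_pos
  obtain ⟨m, hm⟩ : ∃ m : ℕ, m = p ^ e := ⟨_, rfl⟩
  rw [← hm] at hw
  have hm0 : 0 < m := by rw [hm]; exact pow_pos hp.pos e
  have hmr : (0 : ℝ) < m := by exact_mod_cast hm0
  have hmp : p ≤ m := by
    rw [hm]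
    exact le_self_pow (by omega) (by omega)
  have hmp2 : m ≤ p ^ 2 := by
    rw [hm]
    exact Nat.pow_le_pow_right hp.pos he2
  have hD'r : (0 : ℝ) < ((B' ^ 2 - 4 * A' * C' : ℤ) : ℝ) := by exact_mod_cast hD'
  set s1 : ℝ := Real.sqrt ((B' ^ 2 - 4 * A' * C' : ℤ) : ℝ) with hs1
  have hs10 : 0 < s1 := Real.sqrt_pos.2 hD'r
  have hs12 : s1 ^ 2 = ((B' ^ 2 - 4 * A' * C' : ℤ) : ℝ) := Real.sq_sqrt hD'r.le
  have hl1 := ell_le (hδ.trans (by norm_num)) hs10.le hs12 (show ell A' B' C' w' = 0 from hw') hcon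
  obtain ⟨B2, hB2⟩ : ∃ B2 : ℤ, B2 = 2 * A' * β + B' * m := ⟨_, rfl⟩
  obtain ⟨C2, hC2⟩ : ∃ C2 : ℤ, C2 = A' * β ^ 2 + B' * β * m + C' * m ^ 2 := ⟨_, rfl⟩
  have hdisc : B2 ^ 2 - 4 * A' * C2 = m ^ 2 * (B' ^ 2 - 4 * A' * C') := by
    rw [hB2, hC2]; ring
  have hell : ell A' B2 C2 v = m ^ 2 * ell A' B' C' w := by
    rw [hB2, hC2]
    unfold ell
    rw [im_eq hw, re_eq hw]
    push_cast
    field_simp
    ring
  have hl2 : |ell A' B2 C2 v| ≤ 10 * (m * s1) * δ * v.im := by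
    rw [hell, abs_mul, abs_of_pos (show (0 : ℝ) < (m : ℝ) ^ 2 by positivity)]
    calc (m : ℝ) ^ 2 * |ell A' B' C' w| ≤ (m : ℝ) ^ 2 * (10 * s1 * δ * w.im) := by gcongr
      _ = 10 * (m * s1) * δ * v.im := by
          rw [im_eq hw]
          field_simp
          push_cast
          ring
  have hss : s * (m * s1) ≤ N * p ^ 2 := by
    have hN0 : (0 : ℝ) ≤ N := Nat.cast_nonneg _
    have k1 : s ≤ Real.sqrt N := by
      apply Real.le_sqrt_of_sq_le
      rw [hs2]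
      exact_mod_cast hDN
    have k2 : s1 ≤ Real.sqrt N := by
      apply Real.le_sqrt_of_sq_le
      rw [hs12]
      exact_mod_cast hDN'
    have k3 : (m : ℝ) ≤ p ^ 2 := by exact_mod_cast hmp2
    calc s * (m * s1) ≤ Real.sqrt N * (p ^ 2 * Real.sqrt N) := by gcongr
      _ = (Real.sqrt N * Real.sqrt N) * p ^ 2 := by ring
      _ = N * p ^ 2 := by rw [Real.mul_self_sqrt hN0]
  obtain ⟨j1, j2, j3⟩ := jac_zero (s := s) (s' := m * s1) hNR hS hS' hδ0 hδ hs (by positivity) hs2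
    (by rw [hdisc, mul_pow, hs12]; push_cast; ring) (by
      rw [hdisc]
      have k0 : (0 : ℤ) ≤ B ^ 2 - 4 * A * C := by
        have : (0 : ℝ) ≤ ((B ^ 2 - 4 * A * C : ℤ) : ℝ) := by rw [← hs2]; positivity
        exact_mod_cast this
      have k3 : (m : ℤ) ≤ p ^ 2 := by exact_mod_cast hmp2
      calc (B ^ 2 - 4 * A * C) * ((m : ℤ) ^ 2 * (B' ^ 2 - 4 * A' * C')) ≤
            (N : ℤ) * (((p : ℤ) ^ 2) ^ 2 * N) := by gcongr
        _ = ((N ^ 2 * p ^ 4 : ℕ) : ℤ) := by push_cast; ring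
        _ ≤ (M : ℤ) := by exact_mod_cast hM) hl hl2 (by
      refine le_trans ?_ h1
      gcongr) (by
      refine lt_of_le_of_lt ?_ h2
      gcongr)
  obtain ⟨T, hT⟩ : ∃ T : ℤ, T = A' * X + B2 * Y + C2 * Z := ⟨_, rfl⟩
  have f1 : A' = T * A := by
    rw [hT]
    linear_combination (-A') * hbez - Y * j1 - Z * j2
  have f2 : B2 = T * B := by
    rw [hT]
    linear_combination (-B2) * hbez + X * j1 - Z * j3
  have f3 : C2 = T * C := by
    rw [hT]
    linear_combination (-C2) * hbez + X * j2 + Y * j3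
  have hTd : T ^ 2 * (B ^ 2 - 4 * A * C) = m ^ 2 * (B' ^ 2 - 4 * A' * C') := by
    rw [← hdisc]
    rw [f2, f3]
    linear_combination (4 * T * C) * f1
  have hTr : T * (A * β ^ 2 - B * β + C) = (m : ℤ) ^ 2 * C' := by
    have e : T * (A * β ^ 2 - B * β + C) = A' * β ^ 2 - B2 * β + C2 := by
      linear_combination (-(β : ℤ) ^ 2) * f1 + β * f2 - f3
    rw [e, hB2, hC2]
    ring
  have hcop : IsCoprime ((m : ℤ) ^ 2) (A * β ^ 2 - B * β + C) := by
    rw [hm]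
    push_cast
    exact ((((Nat.prime_iff_prime_int.1 hp).coprime_iff_not_dvd.2 hβ).pow_left).pow_left)
  have hdT : (m : ℤ) ^ 2 ∣ T := hcop.dvd_of_dvd_mul_right (by
    rw [hTr]
    exact dvd_mul_right _ _)
  obtain ⟨t, ht⟩ := hdT
  rw [ht] at hTd
  have hmz : (m : ℤ) ^ 2 ≠ 0 := by positivity
  have h3 : (m : ℤ) ^ 2 * t ^ 2 * (B ^ 2 - 4 * A * C) = B' ^ 2 - 4 * A' * C' := by
    apply mul_left_cancel₀ hmz
    rw [← hTd]
    ring
  have ht0 : t ≠ 0 := by
    rintro rfl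
    simp at h3
    linarith
  have ht1 : 1 ≤ t ^ 2 := sq_pos_of_ne_zero ht0
  have hD1 : 1 ≤ B ^ 2 - 4 * A * C := by
    have : (0 : ℝ) < ((B ^ 2 - 4 * A * C : ℤ) : ℝ) := by rw [← hs2]; positivity
    exact_mod_cast this
  have h4 : (m : ℤ) ^ 2 * 1 * 1 ≤ (m : ℤ) ^ 2 * t ^ 2 * (B ^ 2 - 4 * A * C) :=
    mul_le_mul (mul_le_mul_of_nonneg_left ht1 (sq_nonneg _)) hD1 zero_le_one
      (mul_nonneg (sq_nonneg _) (sq_nonneg _))
  rw [h3] at h4
  have h5 : (m : ℤ) ≤ (m : ℤ) ^ 2 := by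
    have : (1 : ℤ) ≤ m := by exact_mod_cast hm0
    exact le_self_pow₀ this two_ne_zero
  have h6 : (N : ℤ) < m := by exact_mod_cast lt_of_lt_of_le hNp hmp
  linarith

end Pool.Agent.Helper65.SN
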